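import Mathlib

set_option autoImplicit false

/-!
The difference basis of the sequence space of absolutely summable sequences
(equivalently the unit vector basis of the space of null sequences of bounded variation)
is lower unconditional for constant coefficients, with constant one,
but it is not suppression unconditional for constant coefficients.
-/

namespace Pool.Agent.Results.MP_ee84c2_an.LuccNotSucc

open Filter Topology Finset

/-- A basis in the sense of the problem: the closed linear span is everything and there are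
continuous biorthogonal functionals. -/
def IsBasis {𝕜 X : Type} [RCLike 𝕜] [NormedAddCommGroup X] [NormedSpace 𝕜 X]
    (x : ℕ → X) (xs : ℕ → (X →L[𝕜] 𝕜)) : Prop :=
  (Submodule.span 𝕜 (Set.range x)).topologicalClosure = ⊤ ∧
    ∀ k n : ℕ, xs k (x n) = if k = n then 1 else 0

/-- Lower unconditionality for constant coefficients, with constant `C`. -/
def LUCCWith (𝕜 : Type) {X : Type} [RCLike 𝕜] [NormedAddCommGroup X] [NormedSpace 𝕜 X]
    (C : ℝ) (x : ℕ → X) : Prop :=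
  ∀ (A : Finset ℕ) (ε : ℕ → 𝕜) (a : ℕ → ℝ), (∀ n ∈ A, ‖ε n‖ = 1) → (∀ n ∈ A, 1 ≤ a n) →
    ‖∑ n ∈ A, ε n • x n‖ ≤ C * ‖∑ n ∈ A, (ε n * (a n : 𝕜)) • x n‖

/-- Suppression unconditionality for constant coefficients, with constant `C`. -/
def SUCCWith (𝕜 : Type) {X : Type} [RCLike 𝕜] [NormedAddCommGroup X] [NormedSpace 𝕜 X]
    (C : ℝ) (x : ℕ → X) : Prop :=
  ∀ (A B : Finset ℕ) (ε : ℕ → 𝕜), B ⊆ A → (∀ n ∈ A, ‖ε n‖ = 1) →
    ‖∑ n ∈ B, ε n • x n‖ ≤ C * ‖∑ n ∈ A, ε n • x n‖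

section proofs

variable (𝕜 : Type) [RCLike 𝕜]

/-- the space of absolutely summable scalar sequences -/
abbrev L1 : Type := lp (fun _ : ℕ => 𝕜) 1

/-- the difference basis -/
noncomputable def dx (n : ℕ) : L1 𝕜 :=
  lp.single 1 n (1 : 𝕜) - (if n = 0 then 0 else lp.single 1 (n - 1) (1 : 𝕜))

theorem dx_apply (n m : ℕ) :
    (dx 𝕜 n : ℕ → 𝕜) m = (if m = n then 1 else 0) - (if m + 1 = n then 1 else 0) := by
  unfold dx
  rw [lp.coeFn_sub, Pi.sub_apply, lp.single_apply, Pi.single_apply]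
  congr 1
  by_cases hn : n = 0
  · subst hn; simp
  · rw [if_neg hn, lp.single_apply, Pi.single_apply]
    by_cases h : m + 1 = n
    · have h2 : m = n - 1 := by omega
      rw [if_pos h, if_pos h2]
    · have h2 : m ≠ n - 1 := by omega
      rw [if_neg h, if_neg h2]

theorem sum_apply (A : Finset ℕ) (c : ℕ → 𝕜) (m : ℕ) :
    ((∑ n ∈ A, c n • dx 𝕜 n : L1 𝕜) : ℕ → 𝕜) m
      = (if m ∈ A then c m else 0) - (if m + 1 ∈ A then c (m + 1) else 0) := by
  rw [lp.coeFn_sum, Finset.sum_apply]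
  have : ∀ n ∈ A, ((c n • dx 𝕜 n : L1 𝕜) : ℕ → 𝕜) m =
      (if m = n then c n else 0) - (if m + 1 = n then c n else 0) := by
    intro n _
    rw [lp.coeFn_smul, Pi.smul_apply, dx_apply]
    simp [mul_sub]
  rw [Finset.sum_congr rfl this, Finset.sum_sub_distrib, Finset.sum_ite_eq, Finset.sum_ite_eq]

theorem proj_nonexp (z w : 𝕜) (a b : ℝ) (hz : ‖z‖ = 1) (hw : ‖w‖ = 1) (ha : 1 ≤ a) (hb : 1 ≤ b) :
    ‖z - w‖ ≤ ‖z * (a : 𝕜) - w * (b : 𝕜)‖ := by
  have h1 := norm_sub_sq (𝕜 := 𝕜) z w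
  have h2 := norm_sub_sq (𝕜 := 𝕜) (z * (a : 𝕜)) (w * (b : 𝕜))
  have h3 : RCLike.re (inner 𝕜 (z * (a : 𝕜)) (w * (b : 𝕜))) = a * b * RCLike.re (inner 𝕜 z w) := by
    rw [mul_comm z, mul_comm w, ← smul_eq_mul, ← smul_eq_mul, inner_smul_left, inner_smul_right,
      RCLike.conj_ofReal, ← mul_assoc, ← RCLike.ofReal_mul, RCLike.re_ofReal_mul]
  have h4 : RCLike.re (inner 𝕜 z w) ≤ ‖z‖ * ‖w‖ := re_inner_le_norm z w
  have h5 : ‖z * (a : 𝕜)‖ = a := by
    rw [norm_mul, hz, one_mul, RCLike.norm_ofReal, abs_of_nonneg (by linarith)]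
  have h6 : ‖w * (b : 𝕜)‖ = b := by
    rw [norm_mul, hw, one_mul, RCLike.norm_ofReal, abs_of_nonneg (by linarith)]
  rw [h3, h5, h6] at h2
  rw [hz, hw] at h1 h4
  apply le_of_sq_le_sq _ (norm_nonneg _)
  rw [h1, h2]
  set t := RCLike.re (inner 𝕜 z w)
  have h7 : (a * b - 1) * (1 - t) ≥ 0 := by
    apply mul_nonneg
    · nlinarith
    · linarith
  nlinarith [sq_nonneg (a - b)]

/-- the coefficient functionals -/
noncomputable def dxs (n : ℕ) : L1 𝕜 →L[𝕜] 𝕜 :=
  lp.tsumCLM 𝕜 ℕ 𝕜 - ∑ m ∈ range n, lp.evalCLM 𝕜 (fun _ : ℕ => 𝕜) 1 m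

theorem summable_coe (f : L1 𝕜) : Summable (fun m => ‖f m‖) := by
  have := (lp.memℓp f).summable (by simp)
  simpa using this

theorem norm_eq (f : L1 𝕜) : ‖f‖ = ∑' m, ‖f m‖ := by
  have := lp.norm_eq_tsum_rpow (p := 1) (by simp) f
  simpa using this

theorem dxs_apply (n : ℕ) (f : L1 𝕜) : dxs 𝕜 n f = ∑' m, f (m + n) := by
  have h1 : dxs 𝕜 n f = ∑' m, f m - ∑ m ∈ range n, f m := by
    unfold dxs
    rw [_root_.sub_apply, _root_.sum_apply]
    rfl
  rw [h1, ← (Summable.of_norm (summable_coe 𝕜 f)).sum_add_tsum_nat_add n]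
  ring

theorem dxs_norm_le (n : ℕ) : ‖dxs 𝕜 n‖ ≤ 1 := by
  apply ContinuousLinearMap.opNorm_le_bound _ zero_le_one
  intro f
  rw [dxs_apply, one_mul, norm_eq]
  have hs := summable_coe 𝕜 f
  have hs' : Summable (fun m => ‖f (m + n)‖) := (summable_nat_add_iff n).2 hs
  calc ‖∑' m, f (m + n)‖ ≤ ∑' m, ‖f (m + n)‖ := norm_tsum_le_tsum_norm hs'
    _ ≤ ∑' m, ‖f m‖ := by
      rw [← hs.sum_add_tsum_nat_add n]
      have : 0 ≤ ∑ i ∈ range n, ‖f i‖ := Finset.sum_nonneg (fun i _ => norm_nonneg _)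
      linarith

theorem aux (k n : ℕ) :
    HasSum (fun m : ℕ => (if m + k = n then (1 : 𝕜) else 0)) (if k ≤ n then 1 else 0) := by
  by_cases h : k ≤ n
  · rw [if_pos h]
    have := hasSum_ite_eq (n - k) (1 : 𝕜)
    convert this using 2 with m
    have : m + k = n ↔ m = n - k := by omega
    simp [this]
  · rw [if_neg h]
    have : (fun m : ℕ => (if m + k = n then (1 : 𝕜) else 0)) = fun _ => 0 := by
      funext m
      rw [if_neg (by omega)]
    rw [this]
    exact hasSum_zero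

theorem biorth (k n : ℕ) : dxs 𝕜 k (dx 𝕜 n) = if k = n then 1 else 0 := by
  rw [dxs_apply]
  have h := (aux 𝕜 k n).sub (aux 𝕜 (k + 1) n)
  have h2 : (fun m : ℕ => (dx 𝕜 n : ℕ → 𝕜) (m + k)) =
      (fun m : ℕ => (if m + k = n then (1 : 𝕜) else 0) - (if m + (k + 1) = n then 1 else 0)) := by
    funext m
    rw [dx_apply]
    rfl
  rw [h2, h.tsum_eq]
  rcases lt_trichotomy k n with h3 | h3 | h3
  · rw [if_pos h3.le, if_pos (by omega), if_neg (by omega), sub_self]
  · rw [if_pos h3.le, if_neg (by omega), if_pos h3, sub_zero]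
  · rw [if_neg (by omega), if_neg (by omega), if_neg (by omega), sub_self]

theorem dxs_sub (f : L1 𝕜) (m : ℕ) : dxs 𝕜 m f - dxs 𝕜 (m + 1) f = f m := by
  rw [dxs_apply, dxs_apply]
  have hs : Summable (fun k => f (k + m)) :=
    (summable_nat_add_iff m).2 (Summable.of_norm (summable_coe 𝕜 f))
  rw [hs.tsum_eq_zero_add]
  have : ∀ b, f (b + 1 + m) = f (b + (m + 1)) := by
    intro b
    rw [show b + 1 + m = b + (m + 1) by omega]
  simp [this]

theorem partial_eq (f : L1 𝕜) (N : ℕ) :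
    ∑ n ∈ range (N + 1), dxs 𝕜 n f • dx 𝕜 n =
      ∑ m ∈ range (N + 1), lp.single 1 m (f m) + lp.single 1 N (dxs 𝕜 (N + 1) f) := by
  apply lp.ext
  funext m
  rw [sum_apply, lp.coeFn_add, Pi.add_apply, lp.coeFn_sum, Finset.sum_apply]
  simp only [lp.single_apply, Pi.single_apply, Finset.sum_ite_eq, Finset.mem_range]
  rcases lt_trichotomy m N with h | h | h
  · rw [if_pos (by omega), if_pos (by omega), if_pos (by omega), if_neg (by omega), add_zero,
      dxs_sub]
  · subst h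
    rw [if_pos (by omega), if_neg (by omega), if_pos (by omega), if_pos rfl, sub_zero,
      ← dxs_sub 𝕜 f m, sub_add_cancel]
  · rw [if_neg (by omega), if_neg (by omega), if_neg (by omega), if_neg (by omega)]
    simp

theorem schauder (f : L1 𝕜) :
    Tendsto (fun N => ∑ n ∈ range N, dxs 𝕜 n f • dx 𝕜 n) atTop (𝓝 f) := by
  rw [← tendsto_add_atTop_iff_nat 1]
  simp only [partial_eq]
  have h1 : Tendsto (fun N => ∑ m ∈ range (N + 1), lp.single 1 m (f m)) atTop (𝓝 f) :=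
    (tendsto_add_atTop_iff_nat 1).2 (lp.hasSum_single (by simp) f).tendsto_sum_nat
  have h2 : Tendsto (fun N => lp.single (E := fun _ : ℕ => 𝕜) 1 N (dxs 𝕜 (N + 1) f)) atTop
      (𝓝 0) := by
    rw [tendsto_zero_iff_norm_tendsto_zero]
    have h3 : ∀ N, ‖lp.single (E := fun _ : ℕ => 𝕜) 1 N (dxs 𝕜 (N + 1) f)‖ =
        ‖∑' m, f (m + (N + 1))‖ := by
      intro N
      rw [lp.norm_single one_pos, dxs_apply]
    simp only [h3]
    have h4 := tendsto_sum_nat_add (fun m => f m)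
    have h5 := ((tendsto_add_atTop_iff_nat 1).2 h4).norm
    simpa using h5
  have := h1.add h2
  rwa [add_zero] at this

theorem lucc : LUCCWith 𝕜 1 (dx 𝕜) := by
  intro A ε a hε ha
  rw [one_mul]
  apply lp.norm_mono one_ne_zero
  intro m
  rw [sum_apply, sum_apply]
  by_cases h1 : m ∈ A <;> by_cases h2 : m + 1 ∈ A
  · simp only [h1, h2, if_true]
    exact proj_nonexp 𝕜 _ _ _ _ (hε _ h1) (hε _ h2) (ha _ h1) (ha _ h2)
  · simp only [h1, h2, if_true, if_false, sub_zero]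
    rw [norm_mul, hε _ h1, RCLike.norm_ofReal, one_mul]
    exact (ha _ h1).trans (le_abs_self _)
  · simp only [h1, h2, if_true, if_false, zero_sub, norm_neg]
    rw [norm_mul, hε _ h2, RCLike.norm_ofReal, one_mul]
    exact (ha _ h2).trans (le_abs_self _)
  · simp [h1, h2]

theorem not_succ (C : ℝ) : ¬ SUCCWith 𝕜 C (dx 𝕜) := by
  intro h
  obtain ⟨N, hN⟩ := exists_nat_gt (max C 1)
  have hNC : C < N := (le_max_left _ _).trans_lt hN
  have hN1 : (1 : ℝ) < N := (le_max_right _ _).trans_lt hN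
  have hN1' : 1 < N := by exact_mod_cast hN1
  set B : Finset ℕ := (range N).image (fun j => 2 * j) with hB
  have hBmem : ∀ m, m ∈ B ↔ ∃ j, j < N ∧ 2 * j = m := by
    intro m; simp [hB]
  have hBcard : B.card = N := by
    rw [hB, Finset.card_image_of_injective _ (fun a b hab => by simpa using hab), card_range]
  have hsub : B ⊆ range (2 * N) := by
    intro m hm
    obtain ⟨j, hj, rfl⟩ := (hBmem m).1 hm
    simp only [mem_range]; omega
  have key := h (range (2 * N)) B (fun _ => 1) hsub (fun n _ => by simp)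
  have hA : ∑ n ∈ range (2 * N), (1 : 𝕜) • dx 𝕜 n = lp.single 1 (2 * N - 1) (1 : 𝕜) := by
    apply lp.ext
    funext m
    rw [sum_apply 𝕜 (range (2 * N)) (fun _ => 1), lp.single_apply, Pi.single_apply]
    simp only [mem_range]
    rcases lt_trichotomy m (2 * N - 1) with h | h | h
    · rw [if_pos (by omega), if_pos (by omega), if_neg (by omega), sub_self]
    · rw [if_pos (by omega), if_neg (by omega), if_pos h, sub_zero]
    · rw [if_neg (by omega), if_neg (by omega), if_neg (by omega), sub_self]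
  rw [hA, lp.norm_single one_pos, norm_one, mul_one] at key
  have hlow := lp.sum_rpow_le_norm_rpow (p := 1) (by simp)
    (∑ n ∈ B, (1 : 𝕜) • dx 𝕜 n : L1 𝕜) B
  simp only [ENNReal.toReal_one, Real.rpow_one] at hlow
  have hcoord : ∀ m ∈ B, ‖((∑ n ∈ B, (1 : 𝕜) • dx 𝕜 n : L1 𝕜) : ℕ → 𝕜) m‖ = 1 := by
    intro m hm
    rw [sum_apply 𝕜 B (fun _ => 1), if_pos hm, if_neg, sub_zero, norm_one]
    intro hm2
    obtain ⟨j, hj, hj2⟩ := (hBmem m).1 hm
    obtain ⟨i, hi, hi2⟩ := (hBmem (m + 1)).1 hm2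
    omega
  rw [Finset.sum_congr rfl hcoord, Finset.sum_const, hBcard] at hlow
  simp only [nsmul_eq_mul, mul_one] at hlow
  linarith

end proofs

/-- For real and for complex scalars there is a Banach space with a semi-normalized, M-bounded
Schauder basis that is LUCC with constant one and is not SUCC. -/
theorem result (𝕜 : Type) [RCLike 𝕜] :
    ∃ (X : Type) (_ : NormedAddCommGroup X) (_ : NormedSpace 𝕜 X) (_ : CompleteSpace X)
      (x : ℕ → X) (xs : ℕ → (X →L[𝕜] 𝕜)),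
      IsBasis x xs ∧
      (∀ f : X, Tendsto (fun N => ∑ n ∈ range N, xs n f • x n) atTop (𝓝 f)) ∧
      (∀ n, 1 ≤ ‖x n‖ ∧ ‖x n‖ ≤ 2 ∧ ‖xs n‖ ≤ 1) ∧
      LUCCWith 𝕜 1 x ∧ ∀ C : ℝ, ¬ SUCCWith 𝕜 C x := by
  refine ⟨L1 𝕜, inferInstance, inferInstance, inferInstance, dx 𝕜, dxs 𝕜, ⟨?_, biorth 𝕜⟩,
    schauder 𝕜, ?_, lucc 𝕜, not_succ 𝕜⟩
  · rw [eq_top_iff]
    intro f _
    rw [← SetLike.mem_coe, Submodule.topologicalClosure_coe]
    refine mem_closure_of_tendsto (schauder 𝕜 f) (Eventually.of_forall fun N => ?_)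
    exact Submodule.sum_mem _ fun n _ =>
      Submodule.smul_mem _ _ (Submodule.subset_span (Set.mem_range_self n))
  · intro n
    refine ⟨?_, ?_, dxs_norm_le 𝕜 n⟩
    · have h := lp.norm_apply_le_norm (p := 1) one_ne_zero (dx 𝕜 n) n
      rw [dx_apply, if_pos rfl, if_neg (by omega), sub_zero, norm_one] at h
      exact h
    · unfold dx
      refine (norm_sub_le _ _).trans ?_
      rw [lp.norm_single one_pos, norm_one]
      split_ifs
      · rw [norm_zero]; norm_num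
      · rw [lp.norm_single one_pos, norm_one]; norm_num

end Pool.Agent.Results.MP_ee84c2_an.LuccNotSucc
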